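import Pool.Agent.Helper4.S7.StD3

/-!
# Project W7, module Tri: triangular system of symbols modulo 7
-/

set_option autoImplicit false

namespace Pool.Agent.Helper8.S7

open Pool.Agent.Helper4.S7 Pool.Agent.Helper84.S7 Pool.Agent.Helper52.S7 Pool.Agent.Helper76.S7
open Pool.Agent.Helper28.WK (SymP)

section main

variable {r s : ℕ}

/-- The value only depends on the leading form. -/
private theorem lead (hLow0 : S7Low0) (O : Module.End (ZMod 7) (Fn7 (7 ^ r) (7 ^ s)))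
    (k : ℤ) (hO : Lw O k) (F L : Fn7 (7 ^ r) (7 ^ s)) (h : F - L ∈ Wd7 (k - 1)) :
    O F = O L := by
  have h1 := hO _ _ h
  have h2 : k - 1 - k = -1 := by ring
  rw [h2] at h1
  have h3 := (hLow0 r s).2.2.2.2.2.2.2.2.2.2.2.2.2 _ h1
  rw [map_sub] at h3
  exact sub_eq_zero.1 h3

private theorem aa_le_ae (c : ℕ) : aa7 c ≤ ae7 c := by
  unfold aa7 ae7
  split_ifs <;> omega

end main

/-- TRI. -/
theorem hTri (hl : S7Low0) (hf : S7Trf) (hd : S7Led) (he : S7Ex) (hi : S7Itr) : S7Tri := by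
  intro r s c i j hc hr hs
  obtain ⟨F, hRel, hFd, hOb⟩ := hd r s c i j hc hr hs
  obtain ⟨G, hG, hGF⟩ := he (ZMod 7) inferInstance r s F hRel
  have hr' : aa7 c + i + 7 * j < 7 ^ r := by
    have := aa_le_ae c
    omega
  have hI := hi r s G (dg7 c i j) hG (by intro f; rw [hGF f]; exact hFd f)
  have hFG : (fun f => (pf7 G f : Fn7 (7 ^ r) (7 ^ s))) = F := funext hGF
  rw [hFG] at hI
  have hc4 : c < 4 := by omega
  have hval : ∀ c' i' j' : ℕ, c' ≤ 3 → dg7 c' i' j' = dg7 c i j →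
      ev7 (7 ^ r) G c' i' j' =
        ((PP7 c' i' j' ⟨c, hc4⟩ : Module.End (ZMod 7) (Fn7 (7 ^ r) (7 ^ s)))
          (bb7 (aa7 c + i + 7 * j) (ab7 c + i + j))) 0 0 := by
    intro c' i' j' hc' h
    rw [(hI c' i' j' hc').2 h]
    have hterm : ∀ o : Fin 4, (PP7 c' i' j' o : Module.End (ZMod 7) (Fn7 (7 ^ r) (7 ^ s))) (Ob7 F o) =
        (PP7 c' i' j' o : Module.End (ZMod 7) (Fn7 (7 ^ r) (7 ^ s)))
          (if o.val = c then bb7 (aa7 c + i + 7 * j) (ab7 c + i + j) else 0) := by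
      intro o
      have h1 := (hf r s).1 c' i' j' o hc'
      rw [h] at h1
      exact lead hl _ _ h1 _ _ (hOb o)
    rw [Finset.sum_eq_single (⟨c, hc4⟩ : Fin 4)]
    · rw [hterm, if_pos rfl]
    · intro o _ ho
      have h2 : ¬ o.val = c := fun h3 => ho (Fin.ext h3)
      rw [hterm, if_neg h2, map_zero]
      rfl
    · intro h3
      exact absurd (Finset.mem_univ _) h3
  refine ⟨G, hG, ?_, ?_⟩
  · rw [hval c i j hc rfl]
    exact (hf r s).2.1 c i j ⟨c, hc4⟩ rfl hr' hs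
  · intro c' i' j' hc' hne
    rcases lt_trichotomy (dg7 c' i' j') (dg7 c i j) with h | h | h
    · exact Or.inl h
    · right
      rw [hval c' i' j' hc' h] at hne
      exact ⟨h, (hf r s).2.2 c i j c' i' j' ⟨c, hc4⟩ rfl hc' hr' hs h hne⟩
    · exact absurd ((hI c' i' j' hc').1 h) hne

end Pool.Agent.Helper8.S7
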