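import Pool.Agent.Helper76.S7.Defs

/-!
# Project W7: CORE from EV, B3a, L2, UB, LB
-/

set_option autoImplicit false

namespace Pool.Agent.Helper8.S7

open Pool.Agent.Helper14.CV Pool.Agent.Helper14.W5 Pool.Agent.Helper76.S7
open Pool.Agent.Helper28.WK (SymP Tw evw Ok)

private theorem Tw_congr (ls : List ℕ) (hls : Ok 7 ls) {G H : ℤ → ℤ → ℂ} (h : EqC G H) :
    EqC (Tw 1 ls G) (Tw 1 ls H) := by
  induction ls with
  | nil => exact h
  | cons l ls ih =>
    exact (ih fun x hx => hls x (List.mem_cons_of_mem _ hx)).Tl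
      (hls l List.mem_cons_self).1.pos 1

private theorem evLP_apply (G : ℤ → ℤ → ℂ) (ls : List ℕ) (hls : Ok 7 ls) :
    evLP 7 G ls = evw 1 ls G := if_pos hls

private theorem evLP_apply' (G : ℤ → ℤ → ℂ) (ls : List ℕ) (hls : ¬ Ok 7 ls) :
    evLP 7 G ls = 0 := if_neg hls

private theorem evLP_congr {G H : ℤ → ℤ → ℂ} (h : EqC G H) : evLP 7 G = evLP 7 H := by
  funext ls
  by_cases hls : Ok 7 ls
  · rw [evLP_apply _ _ hls, evLP_apply _ _ hls]
    exact (Tw_congr ls hls h).diff (Or.inl one_ne_zero) (Or.inr one_ne_zero)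
  · rw [evLP_apply' _ _ hls, evLP_apply' _ _ hls]

/-- The image of `ev` on the symbols of level `7^n`. -/
private noncomputable def V (n : ℕ) : Submodule ℂ (List ℕ → ℂ) := (XSP 7 n).map (evLP 7)

/-- The image of `ev` on the new symbols of level `7^n`. -/
private noncomputable def W (n : ℕ) : Submodule ℂ (List ℕ → ℂ) := (NSP 7 n).map (evLP 7)

private theorem V_le_of_B3a (h : SPB3a) {n : ℕ} (hn : 3 ≤ n) : V n ≤ V (n - 1) ⊔ W n := by
  rintro x ⟨G, hG, rfl⟩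
  obtain ⟨G0, G1, h0, h1, h2⟩ := h 7 (by norm_num) n G hn hG
  refine Submodule.mem_sup.mpr ⟨(evLP 7) G0, ⟨G0, h0, rfl⟩, (evLP 7) G1, ⟨G1, h1, rfl⟩, ?_⟩
  funext ls
  show evLP 7 G0 ls + evLP 7 G1 ls = evLP 7 G ls
  by_cases hls : Ok 7 ls
  · rw [evLP_apply _ _ hls, evLP_apply _ _ hls, evLP_apply _ _ hls]
    exact (h2 ls hls).symm
  · rw [evLP_apply' _ _ hls, evLP_apply' _ _ hls, evLP_apply' _ _ hls, add_zero]

/-- A space of symbols which is determined up to constants by `d` values. -/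
private theorem X_bound {X : Submodule ℂ (ℤ → ℤ → ℂ)} {d : ℕ} (Θ : X →ₗ[ℂ] (Fin d → ℂ))
    (hΘ : ∀ G : X, Θ G = 0 → EqC (G : ℤ → ℤ → ℂ) 0) :
    Module.Finite ℂ (X.map (evLP 7)) ∧ Module.finrank ℂ (X.map (evLP 7)) ≤ d ∧
      ∀ G ∈ X, (evLP 7) G = 0 → ¬ EqC G 0 →
        Module.finrank ℂ (X.map (evLP 7)) + 1 ≤ d := by
  set f : X →ₗ[ℂ] (List ℕ → ℂ) := (evLP 7) ∘ₗ X.subtype with hf
  have hker : LinearMap.ker Θ ≤ LinearMap.ker f := by
    intro G hG
    have h1 : EqC (G : ℤ → ℤ → ℂ) 0 := hΘ G (LinearMap.mem_ker.mp hG)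
    refine LinearMap.mem_ker.mpr ?_
    show evLP 7 (G : ℤ → ℤ → ℂ) = 0
    rw [evLP_congr h1]
    exact map_zero (evLP 7)
  set g : LinearMap.range Θ →ₗ[ℂ] (List ℕ → ℂ) :=
    (Submodule.liftQ (LinearMap.ker Θ) f hker) ∘ₗ (Θ.quotKerEquivRange.symm).toLinearMap with hg
  have hgΘ : ∀ G : X, g ⟨Θ G, LinearMap.mem_range_self Θ G⟩ = f G := by
    intro G
    have h1 : Θ.quotKerEquivRange.symm ⟨Θ G, LinearMap.mem_range_self Θ G⟩ =
        (LinearMap.ker Θ).mkQ G := by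
      rw [LinearEquiv.symm_apply_eq]
      rfl
    show (Submodule.liftQ (LinearMap.ker Θ) f hker)
      (Θ.quotKerEquivRange.symm ⟨Θ G, LinearMap.mem_range_self Θ G⟩) = f G
    rw [h1]
    rfl
  have hrange : X.map (evLP 7) = LinearMap.range g := by
    ext x
    constructor
    · rintro ⟨G, hG, rfl⟩
      exact ⟨⟨Θ ⟨G, hG⟩, LinearMap.mem_range_self Θ _⟩, hgΘ ⟨G, hG⟩⟩
    · rintro ⟨⟨y, G, rfl⟩, rfl⟩
      exact ⟨(G : ℤ → ℤ → ℂ), G.2, (hgΘ G).symm⟩
  have hfin : Module.Finite ℂ (X.map (evLP 7)) := by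
    rw [hrange]
    infer_instance
  have hrk := LinearMap.finrank_range_add_finrank_ker g
  have hle : Module.finrank ℂ (LinearMap.range Θ) ≤ d := by
    have := Submodule.finrank_le (LinearMap.range Θ)
    simpa using this
  refine ⟨hfin, ?_, ?_⟩
  · rw [hrange]
    omega
  · intro G hG he hne
    have h1 : Θ ⟨G, hG⟩ ≠ 0 := fun h0 => hne (hΘ ⟨G, hG⟩ h0)
    have h2 : (⟨Θ ⟨G, hG⟩, LinearMap.mem_range_self Θ _⟩ : LinearMap.range Θ) ∈
        LinearMap.ker g := by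
      rw [LinearMap.mem_ker, hgΘ ⟨G, hG⟩]
      exact he
    have h5 : Nontrivial (LinearMap.ker g) := by
      refine ⟨⟨⟨_, h2⟩, 0, fun h0 => h1 ?_⟩⟩
      have h4 := congrArg Subtype.val h0
      exact congrArg Subtype.val h4
    have h3 : 0 < Module.finrank ℂ (LinearMap.ker g) :=
      Module.finrank_pos (R := ℂ) (M := LinearMap.ker g)
    rw [hrange]
    omega

/-! ### Level 49 -/

private theorem hn_W {G : ℤ → ℤ → ℂ} (hG : SymP 7 0 2 G) : SymP 7 0 2 (act 0 (-1) 49 0 G) := by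
  refine SymP.act hG (by norm_num) fun a b c d hd _ hc => ?_
  obtain ⟨e, rfl⟩ := hc
  refine ⟨d, -e, -49 * b, a, ?_, by simp, ⟨-b, by push_cast; ring⟩, ?_, ?_, ?_, ?_⟩
  · push_cast at hd ⊢; linear_combination hd
  · push_cast; ring
  · ring
  · ring
  · ring

private theorem hn_S {G : ℤ → ℤ → ℂ} (hG : SymP 7 0 2 G) : SymP 7 0 2 (act (-1) 0 0 1 G) := by
  refine SymP.act hG (by norm_num) fun a b c d hd _ hc => ?_
  refine ⟨a, -b, -c, d, ?_, by simp, (dvd_neg).mpr hc, ?_, ?_, ?_, ?_⟩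
  · linear_combination hd
  · ring
  · ring
  · ring
  · ring

private theorem evw_add (ls : List ℕ) (G H : ℤ → ℤ → ℂ) :
    evw 1 ls (G + H) = evw 1 ls G + evw 1 ls H := by
  simp only [evw, Tw_add, Pi.add_apply]; ring

private theorem evw_smul (ls : List ℕ) (s : ℂ) (G : ℤ → ℤ → ℂ) :
    evw 1 ls (s • G) = s * evw 1 ls G := by
  simp only [evw, Tw_smul, Pi.smul_apply, smul_eq_mul]; ring

private theorem evw_neg (ls : List ℕ) (G : ℤ → ℤ → ℂ) : evw 1 ls (-G) = -evw 1 ls G := by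
  have := evw_smul ls (-1) G
  rw [neg_one_smul] at this
  rw [this]; ring

/-- The symbols of level 49 with `W = -1`, `* = 1`. -/
private def X2 : Submodule ℂ (ℤ → ℤ → ℂ) where
  carrier := {K | SymP 7 0 2 K ∧ EqC (act 0 (-1) 49 0 K) (-K) ∧ EqC (act (-1) 0 0 1 K) K}
  add_mem' := by
    rintro K L ⟨h1, h2, h3⟩ ⟨k1, k2, k3⟩
    refine ⟨SymP.add h1 k1, ?_, h3.add k3⟩
    rw [neg_add]
    exact h2.add k2
  zero_mem' := by
    refine ⟨⟨fun _ _ _ _ _ => rfl, fun _ _ _ _ _ _ _ => EqC.refl _⟩, ?_, EqC.refl _⟩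
    exact ⟨0, fun p q _ => by simp [act]⟩
  smul_mem' := by
    rintro s K ⟨h1, h2, h3⟩
    refine ⟨SymP.smul s h1, ?_, h3.smul s⟩
    rw [← smul_neg]
    exact h2.smul s

private theorem proj (hEv : SPEv) (G : ℤ → ℤ → ℂ) (hG : SymP 7 0 2 G) :
    ∃ E ∈ X2, ∀ ls : List ℕ, Ok 7 ls → evw 1 ls E = 4 * evw 1 ls G := by
  have hn := hn_W hG
  have hev := fun ls ho => (hEv 7 (by norm_num) ℂ _ 2 G hG ls ho).1
  norm_num at hev
  obtain ⟨H, hH⟩ : ∃ H : ℤ → ℤ → ℂ, H = G + -act 0 (-1) 49 0 G := ⟨_, rfl⟩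
  have hHev : ∀ ls : List ℕ, Ok 7 ls → evw 1 ls H = 2 * evw 1 ls G := by
    intro ls ho
    rw [hH, evw_add, evw_neg, hev ls ho]
    ring
  have hHS : SymP 7 0 2 H := by
    rw [hH]
    exact SymP.add hG (SymP.neg hn)
  have hWW : EqC (act 0 (-1) 49 0 (act 0 (-1) 49 0 G)) G := by
    rw [act_act]
    have := hG.1.scale (a := 1) (b := 0) (c := 0) (d := 1) (-49) (by norm_num) (by norm_num)
    rw [act_one] at this
    norm_num at this ⊢
    exact this
  have hHW : EqC (act 0 (-1) 49 0 H) (-H) := by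
    have e1 : act 0 (-1) 49 0 H = act 0 (-1) 49 0 G - act 0 (-1) 49 0 (act 0 (-1) 49 0 G) := by
      rw [hH, ← sub_eq_add_neg]; rfl
    have e2 : -H = act 0 (-1) 49 0 G - G := by
      rw [hH, neg_add, neg_neg]; abel
    rw [e1, e2]
    exact (EqC.refl _).sub hWW
  have hHst := hn_S hHS
  have hHevst := fun ls ho => (hEv 7 (by norm_num) ℂ _ 2 H hHS ls ho).2
  obtain ⟨E, hE⟩ : ∃ E : ℤ → ℤ → ℂ, E = H + act (-1) 0 0 1 H := ⟨_, rfl⟩
  have hEev : ∀ ls : List ℕ, Ok 7 ls → evw 1 ls E = 4 * evw 1 ls G := by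
    intro ls ho
    rw [hE, evw_add, hHevst ls ho, hHev ls ho]
    ring
  have hES : SymP 7 0 2 E := by
    rw [hE]
    exact SymP.add hHS hHst
  have hEst : EqC (act (-1) 0 0 1 E) E := by
    refine EqC.of_eq fun p q _ => ?_
    rw [hE]
    simp only [act, Pi.add_apply]
    ring_nf
  have hEW : EqC (act 0 (-1) 49 0 E) (-E) := by
    have a1 : act 0 (-1) 49 0 E = act 0 (-1) 49 0 H + act 0 (-1) 49 0 (act (-1) 0 0 1 H) := by
      rw [hE]; rfl
    have a2 : EqC (act 0 (-1) 49 0 (act (-1) 0 0 1 H)) (act (-1) 0 0 1 (act 0 (-1) 49 0 H)) := by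
      refine EqC.of_eq fun p q hpq => ?_
      simp only [act]
      have := hHS.1 (-1) q (49 * p) (by norm_num) (by omega)
      norm_num at this ⊢
      exact this.symm
    have a3 : EqC (act (-1) 0 0 1 (act 0 (-1) 49 0 H)) (act (-1) 0 0 1 (-H)) :=
      hHW.act (by norm_num)
    have a4 : -E = -H + act (-1) 0 0 1 (-H) := by
      rw [hE, neg_add]; rfl
    rw [a1, a4]
    exact hHW.add (a2.trans a3)
  exact ⟨E, ⟨hES, hEW, hEst⟩, hEev⟩

private theorem mem_X2 (hEv : SPEv) {G : ℤ → ℤ → ℂ} (hG : SymP 7 0 2 G) :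
    evLP 7 G ∈ X2.map (evLP 7) := by
  obtain ⟨E, hE, hev⟩ := proj hEv G hG
  refine ⟨(1 / 4 : ℂ) • E, X2.smul_mem _ hE, ?_⟩
  funext ls
  rw [map_smul, Pi.smul_apply, smul_eq_mul]
  by_cases hls : Ok 7 ls
  · rw [evLP_apply _ _ hls, evLP_apply _ _ hls, hev ls hls]
    ring
  · rw [evLP_apply' _ _ hls, evLP_apply' _ _ hls, mul_zero]

/-- The two values. -/
private def Th2 : X2 →ₗ[ℂ] (Fin 2 → ℂ) where
  toFun K := ![(K : ℤ → ℤ → ℂ) 1 0 - (K : ℤ → ℤ → ℂ) 1 7, (K : ℤ → ℤ → ℂ) 1 7 - (K : ℤ → ℤ → ℂ) 2 7]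
  map_add' K L := by
    funext i
    fin_cases i <;> simp <;> ring
  map_smul' s K := by
    funext i
    fin_cases i <;> simp <;> ring

private theorem Th2_ker (hL2 : S7L2) (K : X2) (h : Th2 K = 0) : EqC (K : ℤ → ℤ → ℂ) 0 := by
  have h0 := congrFun h 0
  have h1 := congrFun h 1
  simp only [Th2, LinearMap.coe_mk, AddHom.coe_mk, Matrix.cons_val_zero, Matrix.cons_val_one,
    Pi.zero_apply] at h0 h1
  exact hL2 K K.2.1 K.2.2.1 K.2.2.2 (sub_eq_zero.1 h0) (sub_eq_zero.1 h1)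

private theorem DD7_2 : DD7 2 = 2 := dd7_small.2.2.2.2.2.1

private theorem V_bound (hEv : SPEv) (h3a : SPB3a) (hL2 : S7L2) (hUB : S7UB) (n : ℕ) (hn : 2 ≤ n) :
    Module.Finite ℂ (V n) ∧ Module.finrank ℂ (V n) ≤ DD7 n := by
  induction n, hn using Nat.le_induction with
  | base =>
    obtain ⟨x1, x2, -⟩ := X_bound Th2 (Th2_ker hL2)
    have hle : V 2 ≤ X2.map (evLP 7) := by
      rintro x ⟨G, hG, rfl⟩
      exact mem_X2 hEv hG
    have hfin : Module.Finite ℂ (V 2) := Submodule.finiteDimensional_of_le hle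
    refine ⟨hfin, ?_⟩
    have h1 := Submodule.finrank_mono hle
    rw [DD7_2]
    omega
  | succ m hm ih =>
    obtain ⟨ih1, ih2⟩ := ih
    have hm3 : 3 ≤ m + 1 := by omega
    obtain ⟨Θ, hΘ⟩ := hUB (m + 1) hm3
    obtain ⟨w1, w2, _⟩ := X_bound Θ hΘ
    have w1' : Module.Finite ℂ (W (m + 1)) := w1
    have w2' : Module.finrank ℂ (W (m + 1)) ≤ dd7 (m + 1) := w2
    have hle := V_le_of_B3a h3a hm3
    rw [Nat.add_sub_cancel] at hle
    have hfin : Module.Finite ℂ (V m ⊔ W (m + 1) : Submodule ℂ (List ℕ → ℂ)) :=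
      Submodule.finiteDimensional_sup _ _
    refine ⟨Submodule.finiteDimensional_of_le hle, ?_⟩
    have h1 := Submodule.finrank_mono hle
    have h2 := Submodule.finrank_add_le_finrank_add_finrank (V m) (W (m + 1))
    have h3 : DD7 (m + 1) = DD7 m + dd7 (m + 1) := by
      unfold DD7
      rw [Finset.sum_range_succ]
      ring
    omega

theorem hCoreOf : S7CoreOf := by
  intro hEv h3a hL2 _ hUB hLB n G hn hG hev
  by_contra hne
  have he : (evLP 7) G = 0 := by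
    funext ls
    by_cases hls : Ok 7 ls
    · rw [evLP_apply _ _ hls]
      exact hev ls hls
    · rw [evLP_apply' _ _ hls]
      rfl
  obtain ⟨H, hH, hli⟩ := hLB n hn
  rcases Nat.lt_or_ge n 3 with hn3 | hn3
  · -- level 49
    obtain rfl : n = 2 := by omega
    obtain ⟨x1, -, x3⟩ := X_bound Th2 (Th2_ker hL2)
    have hGX : G ∈ X2 := by
      obtain ⟨a1, -, -, a4, a5⟩ := hG
      norm_num at a4
      exact ⟨a1, a4, a5⟩
    have h1 := x3 G hGX he hne
    have hli' : LinearIndependent ℂ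
        (fun k => (⟨evLP 7 (H k), mem_X2 hEv (hH k)⟩ : X2.map (evLP 7))) := by
      refine LinearIndependent.of_comp (X2.map (evLP 7)).subtype ?_
      exact hli
    have h4 := hli'.fintype_card_le_finrank
    rw [Fintype.card_fin, DD7_2] at h4
    omega
  · obtain ⟨Θ, hΘ⟩ := hUB n hn3
    obtain ⟨w1, w2, w3⟩ := X_bound Θ hΘ
    have w1' : Module.Finite ℂ (W n) := w1
    have hw : Module.finrank ℂ (W n) + 1 ≤ dd7 n := w3 G hG he hne
    obtain ⟨v1, v2⟩ := V_bound hEv h3a hL2 hUB (n - 1) (by omega)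
    have hle := V_le_of_B3a h3a (n := n) (by omega)
    have hfin : Module.Finite ℂ (V (n - 1) ⊔ W n : Submodule ℂ (List ℕ → ℂ)) :=
      Submodule.finiteDimensional_sup _ _
    have hfinV : Module.Finite ℂ (V n) := Submodule.finiteDimensional_of_le hle
    have h1 := Submodule.finrank_mono hle
    have h2 := Submodule.finrank_add_le_finrank_add_finrank (V (n - 1)) (W n)
    have h3 : DD7 n = DD7 (n - 1) + dd7 n := by
      obtain ⟨m, rfl⟩ : ∃ m, n = m + 1 := ⟨n - 1, by omega⟩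
      rw [Nat.add_sub_cancel]
      unfold DD7
      rw [Finset.sum_range_succ]
      ring
    have hli' : LinearIndependent ℂ (fun k => (⟨evLP 7 (H k), ⟨H k, hH k, rfl⟩⟩ : V n)) := by
      refine LinearIndependent.of_comp (V n).subtype ?_
      exact hli
    have h4 := hli'.fintype_card_le_finrank
    rw [Fintype.card_fin] at h4
    omega

end Pool.Agent.Helper8.S7
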